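import Pool.Agent.H11.EL.Targets

/-!
# Module BL of MP_0b603e_al: `Th` is quadratic with the bilinear form `BB`
-/

set_option autoImplicit false

open scoped commutatorElement

namespace Pool.Agent.H49.EL

open Pool.Agent.H11.EL

private theorem cen_mul {G : Type} [Group G] {x y : G} (hx : ∀ g : G, x * g = g * x)
    (hy : ∀ g : G, y * g = g * y) : ∀ g : G, x * y * g = g * (x * y) := by
  intro g
  rw [mul_assoc, hy g, ← mul_assoc, hx g, mul_assoc]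

/-- rearrangement of the product of eight factors -/
private theorem eight {G : Type} [Group G] (X1 X1' Y1 Y1' X2' X2 Y2' Y2 : G)
    (hA : ∀ g : G, ⁅X1', Y1⁆ * g = g * ⁅X1', Y1⁆)
    (hB : ∀ g : G, ⁅X1' * Y1' * X2', X2⁆ * g = g * ⁅X1' * Y1' * X2', X2⁆)
    (hC : ∀ g : G, ⁅X1' * Y1' * X2' * Y2', Y2⁆ * g = g * ⁅X1' * Y1' * X2' * Y2', Y2⁆) :
    X1 * X1' * (Y1 * Y1') * (X2' * X2) * (Y2' * Y2) =
      X1 * Y1 * X2 * Y2 * (X1' * Y1' * X2' * Y2') *
        (⁅X1', Y1⁆ * ⁅X1' * Y1' * X2', X2⁆ * ⁅X1' * Y1' * X2' * Y2', Y2⁆) := by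
  have e1 : X1' * Y1 = Y1 * X1' * ⁅X1', Y1⁆ := by
    rw [← hA]
    simp only [commutatorElement_def]
    group
  have e2 : X1' * Y1' * X2' * X2 = X2 * (X1' * Y1' * X2') * ⁅X1' * Y1' * X2', X2⁆ := by
    rw [← hB]
    simp only [commutatorElement_def]
    group
  have e3 : X1' * Y1' * X2' * Y2' * Y2 =
      Y2 * (X1' * Y1' * X2' * Y2') * ⁅X1' * Y1' * X2' * Y2', Y2⁆ := by
    rw [← hC]
    simp only [commutatorElement_def]
    group
  calc X1 * X1' * (Y1 * Y1') * (X2' * X2) * (Y2' * Y2)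
      = X1 * (X1' * Y1) * (Y1' * X2' * X2 * Y2' * Y2) := by group
    _ = X1 * Y1 * X1' * (⁅X1', Y1⁆ * (Y1' * X2' * X2 * Y2' * Y2)) := by
        rw [e1]
        simp only [mul_assoc]
    _ = X1 * Y1 * (X1' * Y1' * X2' * X2) * (Y2' * Y2) * ⁅X1', Y1⁆ := by
        rw [hA]
        simp only [mul_assoc]
    _ = X1 * Y1 * X2 * (X1' * Y1' * X2') * (⁅X1' * Y1' * X2', X2⁆ * (Y2' * Y2)) * ⁅X1', Y1⁆ := by
        rw [e2]
        simp only [mul_assoc]
    _ = X1 * Y1 * X2 * (X1' * Y1' * X2' * Y2' * Y2) * (⁅X1' * Y1' * X2', X2⁆ * ⁅X1', Y1⁆) := by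
        rw [hB]
        simp only [mul_assoc]
    _ = X1 * Y1 * X2 * Y2 * (X1' * Y1' * X2' * Y2') *
          (⁅X1' * Y1' * X2' * Y2', Y2⁆ * (⁅X1' * Y1' * X2', X2⁆ * ⁅X1', Y1⁆)) := by
        rw [e3]
        simp only [mul_assoc]
    _ = _ := by
        rw [hC, hB]

private theorem one_comm {G : Type} [Group G] {M : Subgroup G} (hM : M.Normal)
    (hc : ∀ x ∈ M, ∀ y ∈ M, ∀ g : G, ⁅x, y⁆ * g = g * ⁅x, y⁆) (a b x y x' y' : G) (hx : x ∈ M)
    (hy : y ∈ M) (hx' : x' ∈ M) (hy' : y' ∈ M) :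
    th a b (x * x') (y * y') = th a b x y * th a b x' y' * be a b x y x' y' ∧
      ∀ g : G, be a b x y x' y' * g = g * be a b x y x' y' := by
  have m1 : a * y * a⁻¹ ∈ M := hM.conj_mem _ hy _
  have m1' : a * y' * a⁻¹ ∈ M := hM.conj_mem _ hy' _
  have m2 : a * b * a⁻¹ * x⁻¹ * (a * b * a⁻¹)⁻¹ ∈ M := hM.conj_mem _ (M.inv_mem hx) _
  have m2' : a * b * a⁻¹ * x'⁻¹ * (a * b * a⁻¹)⁻¹ ∈ M := hM.conj_mem _ (M.inv_mem hx') _
  have m3 : ⁅a, b⁆ * y⁻¹ * ⁅a, b⁆⁻¹ ∈ M := hM.conj_mem _ (M.inv_mem hy) _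
  have m3' : ⁅a, b⁆ * y'⁻¹ * ⁅a, b⁆⁻¹ ∈ M := hM.conj_mem _ (M.inv_mem hy') _
  have mP : x' * (a * y' * a⁻¹) * (a * b * a⁻¹ * x'⁻¹ * (a * b * a⁻¹)⁻¹) ∈ M :=
    M.mul_mem (M.mul_mem hx' m1') m2'
  have hA := hc _ hx' _ m1
  have hB := hc _ mP _ m2
  have hC := hc _ (M.mul_mem mP m3') _ m3
  have key := eight x x' (a * y * a⁻¹) (a * y' * a⁻¹) (a * b * a⁻¹ * x'⁻¹ * (a * b * a⁻¹)⁻¹)
    (a * b * a⁻¹ * x⁻¹ * (a * b * a⁻¹)⁻¹) (⁅a, b⁆ * y'⁻¹ * ⁅a, b⁆⁻¹) (⁅a, b⁆ * y⁻¹ * ⁅a, b⁆⁻¹)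
    hA hB hC
  constructor
  · have e : th a b (x * x') (y * y') = x * x' * (a * y * a⁻¹ * (a * y' * a⁻¹)) *
        (a * b * a⁻¹ * x'⁻¹ * (a * b * a⁻¹)⁻¹ * (a * b * a⁻¹ * x⁻¹ * (a * b * a⁻¹)⁻¹)) *
        (⁅a, b⁆ * y'⁻¹ * ⁅a, b⁆⁻¹ * (⁅a, b⁆ * y⁻¹ * ⁅a, b⁆⁻¹)) := by
      unfold th
      generalize ⁅a, b⁆ = k
      group
    rw [e, key]
    rfl
  · exact cen_mul (cen_mul hA hB) hC

/-- module BL -/
theorem pf_bl : T_BL := by
  intro G _ M hM hc n a b x y x' y' hx hy hx' hy'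
  have key : Th n a b (fun i => x i * x' i) (fun i => y i * y' i) =
        Th n a b x y * Th n a b x' y' * BB n a b x y x' y' ∧
      ∀ g : G, BB n a b x y x' y' * g = g * BB n a b x y x' y' := by
    induction n with
    | zero => simp
    | succ n ih =>
      obtain ⟨ih1, ih2⟩ := ih
      obtain ⟨h1, h2⟩ := one_comm hM hc (a n) (b n) (x n) (y n) (x' n) (y' n) (hx n) (hy n)
        (hx' n) (hy' n)
      have hT : Th n a b x' y' ∈ M := Th_mem hM (fun i _ => hx' i) (fun i _ => hy' i)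
      have ht : cp n a b * th (a n) (b n) (x n) (y n) * (cp n a b)⁻¹ ∈ M :=
        hM.conj_mem _ (th_mem hM (hx n) (hy n)) _
      have hD := hc _ hT _ ht
      rw [Th_succ, Th_succ, Th_succ, BB_succ, ih1, h1]
      generalize Th n a b x y = T at *
      generalize Th n a b x' y' = T' at *
      generalize BB n a b x y x' y' = B at *
      generalize be (a n) (b n) (x n) (y n) (x' n) (y' n) = e at *
      generalize th (a n) (b n) (x n) (y n) = t at *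
      generalize th (a n) (b n) (x' n) (y' n) = t' at *
      generalize cp n a b = c at *
      refine ⟨?_, cen_mul ih2 (cen_mul h2 hD)⟩
      have e1 : T' * (c * t * c⁻¹) = c * t * c⁻¹ * T' * ⁅T', c * t * c⁻¹⁆ := by
        rw [← hD]
        simp only [commutatorElement_def]
        group
      calc T * T' * B * (c * (t * t' * e) * c⁻¹)
          = T * T' * B * (c * (t * t') * (e * c⁻¹)) := by simp only [mul_assoc]
        _ = T * T' * (B * (c * (t * t') * c⁻¹)) * e := by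
            rw [h2 c⁻¹]
            simp only [mul_assoc]
        _ = T * (T' * (c * t * c⁻¹)) * (c * t' * c⁻¹) * (B * e) := by
            rw [ih2]
            group
        _ = T * (c * t * c⁻¹) * T' * (⁅T', c * t * c⁻¹⁆ * (c * t' * c⁻¹)) * (B * e) := by
            rw [e1]
            simp only [mul_assoc]
        _ = T * (c * t * c⁻¹) * (T' * (c * t' * c⁻¹)) * (⁅T', c * t * c⁻¹⁆ * (B * e)) := by
            rw [hD (c * t' * c⁻¹)]
            simp only [mul_assoc]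
        _ = _ := by
            rw [hD (B * e)]
            simp only [mul_assoc]
  exact key.1

end Pool.Agent.H49.EL
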